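import Mathlib
import Pool.Agent.W280.PC.HeunFinal

set_option autoImplicit false

namespace Pool.Agent.Results.MP_aa40d3_nt.HeunPrimeDenominators

open Polynomial H921PC

/-- Second order Fuchsian operators over `ℚ` with rational local exponents, of which at most four
singular points (three finite ones and infinity) have non-integral exponent data, any number of
further singular points with integral exponents, and arbitrary accessory parameters.
The operator
`L = D A ∂² + (∑ᵢ (D - rᵢ) qᵢ' ∏_{j ≠ i} qⱼ) ∂ + R`, `A = ∏ qᵢ` separable, has local exponents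
`0, rᵢ / D` at the roots of `qᵢ` and `a / D, b / D` at infinity. Assume that every `rᵢ` and `a - b`
is prime to `D` or divisible by `D`, and that no resonance occurs: `a + ∑ eᵢ rᵢ` is prime to `D`
for all `0 ≤ eᵢ ≤ deg qᵢ`. If `D` is a prime number the assumption just says that `D` divides none
of the numbers `a + ∑ eᵢ rᵢ`.

Then there is a residue class modulo `D` such that for every large prime `p` in the class the
reduction of `L` modulo `p` does not have a full basis of rational solutions. There are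
infinitely many such primes, so the open implication of Grothendieck's conjecture holds for `L`. -/
theorem result : ∀ (k D : ℕ) (q : Fin k → ℤ[X]) (r : Fin k → ℤ) (a b : ℤ) (R : ℤ[X]),
    1 < D →
    ((∏ i, q i).map (Int.castRingHom ℚ)).Separable →
    2 ≤ (∏ i, q i).natDegree →
    (∀ i, (D : ℤ) ∣ r i → 0 < r i) →
    a + b + ∑ i, r i * (q i).natDegree = D * ((∏ i, q i).natDegree - 1) →
    R.natDegree ≤ (∏ i, q i).natDegree - 2 →
    (D : ℤ) * R.coeff ((∏ i, q i).natDegree - 2) = a * b * (∏ i, q i).leadingCoeff →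
    ∑ i, (if (D : ℤ) ∣ r i then 0 else (q i).natDegree) ≤ 3 →
    (∀ i, IsCoprime (r i) (D : ℤ) ∨ (D : ℤ) ∣ r i) →
    (IsCoprime (a - b) (D : ℤ) ∨ (D : ℤ) ∣ a - b) →
    (∀ e : Fin k → ℕ, (∀ i, e i ≤ (q i).natDegree) →
      IsCoprime (a + ∑ i, (e i : ℤ) * r i) (D : ℤ)) →
    (∃ c : ℤ, IsCoprime c (D : ℤ) ∧
      (∃ N : ℕ, ∀ p : ℕ, N < p → ∀ _hp : Fact p.Prime, (D : ℤ) ∣ p * c - 1 →
        ¬ FullModP (Lop D q r R) p) ∧
      (∀ N : ℕ, ∃ p : ℕ, N < p ∧ p.Prime ∧ (D : ℤ) ∣ p * c - 1)) ∧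
    ((∃ N : ℕ, ∀ p : ℕ, N < p → ∀ _hp : Fact p.Prime, FullModP (Lop D q r R) p) →
      FullAlgebraic (Lop D q r R)) := by
  intro k D q r a b R hD hsep hn hr hab hR hR' h3 hri habD hres
  obtain ⟨c, hc, h1⟩ := Pool.Agent.W280.PC.heun q r a b R hD hsep hn hr hab hR hR' h3 hri habD hres
  have h2 := exists_primes (show 0 < D by omega) hc
  refine ⟨⟨c, hc, h1, h2⟩, ?_⟩
  rintro ⟨N, hN⟩
  obtain ⟨M, hM⟩ := h1
  obtain ⟨p, hp1, hp2, hp3⟩ := h2 (max N M)
  have hp : Fact p.Prime := ⟨hp2⟩
  exact absurd (hN p (lt_of_le_of_lt (le_max_left _ _) hp1) hp)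
    (hM p (lt_of_le_of_lt (le_max_right _ _) hp1) hp hp3)

end Pool.Agent.Results.MP_aa40d3_nt.HeunPrimeDenominators
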