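import Pool.Agent.W432.HK.Stmt

set_option autoImplicit false

open Polynomial Pool.Agent.W432.WB Pool.Agent.W432.TC Pool.Agent.W432.HK

namespace Pool.Agent.Results.MP_aa40d3_nt.TorsionCosets

/-- The open implication of Grothendieck's conjecture holds for all operators of order `n` with at
most `m + 1` singular points, except possibly for those with exponents on finitely many torsion
cosets of codimension at least `n + 1`.

For all `m, n ≥ 1` there is a finite set `𝒟` of connected torsion cosets in the torus of the
exponents of Fuchsian operators of order `n` with `m` finite singular points (a coset is given by a
saturated group of integral relations and a rational point); each of them has codimension (the rank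
of the group of relations) at least `n + 1`, one of the relations always being Fuchs' relation
`traceRelation`, and all of its real points satisfy the Weyl inequalities. They are such that:

(1) for every Fuchsian operator `∑ b k ∂ ^ k` with finite singular points among the `α j`, with
rational exponents of common denominator `N` and with arbitrary accessory parameters, either the
exponents lie on a coset in `𝒟`, or there is a full basis of algebraic solutions, or there is a
class modulo `N`, prime to `N`, such that for all large primes in this class the reduction of the
operator modulo `p` does not have a full basis of rational solutions;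

(2) if `b n ≠ 0`, the zeros of `b n` are among the `α j`, and the reductions have a full basis of
rational solutions for almost all primes, then there is a full basis of algebraic solutions, or the
operator is Fuchsian with rational exponents that lie on a coset in `𝒟`. -/
theorem result (m n : ℕ) (hm : 1 ≤ m) (hn : 1 ≤ n) :
    ∃ 𝒟 : Finset (TorsionCoset m n),
      (∀ C ∈ 𝒟, C.Connected ∧ traceRelation m n ∈ C.relations ∧ C.CodimGe (n + 1) ∧
        ∀ z, C.Mem z → WeylBoth z) ∧
      ∀ (b : Fin (n + 1) → ℤ[X]) (α : Fin m → AlgebraicClosure ℚ),
        (∀ lam phi N, FuchsianWith b α lam phi → CommonDen lam phi N →
          (∃ C ∈ 𝒟, C.Mem (expVec lam phi)) ∨ FullAlg b ∨ BadClass b N) ∧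
        (ZerosAmong b α → Cond b → FullAlg b ∨
          ∃ lam phi, FuchsianWith b α lam phi ∧ ∃ C ∈ 𝒟, C.Mem (expVec lam phi)) :=
  cosets_stmt m n hm hn

end Pool.Agent.Results.MP_aa40d3_nt.TorsionCosets
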