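import Pool.Agent.W432.WB.Prime

set_option autoImplicit false

open Polynomial Pool.Agent.W432.WB
open Pool.Agent.W432.PC (wt lexLE)

namespace Pool.Agent.Results.MP_aa40d3_nt.WeylInequalities

/-- Fuchsian operators of arbitrary order `n` over `ℚ` with rational local exponents, any number
`m` of finite singular points and arbitrary accessory parameters.

`L = ∑ b k ∂ ^ k` with `b k` in `ℤ[x]`, `b k / b n = Q k / T ^ (n - k)`, `T = ∏ (x - α j)` over
`ℂ`, `deg Q k ≤ (n - k)(m - 1)`; the local exponents are `lam j l` at `α j`, and `phi l` are the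
degrees of the solutions at infinity (the negatives of the exponents there). All of them are
rational with common denominator `N`. For an integer `a` prime to `N` let `wt a q` be the
fractional part of `a q`, except that `wt a q = 1` if `q` is a negative integer, and suppose that
the exponents are numbered so that `(wt a q, q)` increases lexicographically; at infinity the
exponents are shifted by `(n - 1)(m - 1)`. Let `κ j`, `s` be indices and `q` an integer with
`∑ wt (lam j l) - ∑ wt (phi l) + ∑ κ j = q n + s`. If `q + wt (phi s) < ∑ wt (lam j (κ j))`, or if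
equality holds and `L` has no solution `∏ (x - α j) ^ (lam j (κ j)) z(x)` with a polynomial
`z ≠ 0`, then for every large prime `p` with `a p ≡ -1 (mod N)` the reduction of `L` modulo `p`
does not have a full basis of rational solutions. There are infinitely many such primes, so the
open implication of Grothendieck's conjecture holds for `L`. -/
theorem result : ∀ (m n : ℕ) (b : Fin (n + 1) → ℤ[X]) (α : Fin m → ℂ) (Q : Fin (n + 1) → ℂ[X])
    (lam : Fin m → Fin n → ℚ) (phi : Fin n → ℚ) (N : ℕ) (a : ℤ) (κ : Fin m → Fin n) (s : Fin n)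
    (q : ℤ), 0 < m → 0 < n → b (Fin.last n) ≠ 0 → IsFuchs b α Q → HasExps α Q lam phi → 0 < N →
    (∀ j l, ∃ z : ℤ, (N : ℚ) * lam j l = z) → (∀ l, ∃ z : ℤ, (N : ℚ) * phi l = z) →
    IsCoprime a (N : ℤ) →
    (∀ j l l', l ≤ l' → lexLE a (lam j l) (lam j l')) →
    (∀ l l', l ≤ l' → lexLE a (phi l + (((n - 1) * (m - 1) : ℕ) : ℚ))
      (phi l' + (((n - 1) * (m - 1) : ℕ) : ℚ))) →
    ∑ j, ∑ l, wt a (lam j l) - ∑ l, wt a (phi l + (((n - 1) * (m - 1) : ℕ) : ℚ)) +
      ∑ j, ((κ j : ℕ) : ℚ) = q * n + (s : ℕ) →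
    (q + wt a (phi s + (((n - 1) * (m - 1) : ℕ) : ℚ)) < ∑ j, wt a (lam j (κ j)) ∨
      (q + wt a (phi s + (((n - 1) * (m - 1) : ℕ) : ℚ)) = ∑ j, wt a (lam j (κ j)) ∧
        ¬ HasMonSol α Q (fun j => lam j (κ j)))) →
    (∃ P₀ : ℕ, ∀ p : ℕ, P₀ < p → (N : ℤ) ∣ a * p + 1 → ∀ _hp : Fact p.Prime, ¬ FullMod b p) ∧
    (∀ P : ℕ, ∃ p : ℕ, P < p ∧ p.Prime ∧ (N : ℤ) ∣ a * p + 1) ∧
    ((∃ P : ℕ, ∀ p : ℕ, P < p → ∀ _hp : Fact p.Prime, FullMod b p) → FullAlg b) := by
  intro m n b α Q lam phi N a κ s q hm hn hb hF hE hN hNlam hNphi ha hsort hsort' hq hor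
  have h1 : ∃ P₀ : ℕ, ∀ p : ℕ, P₀ < p → (N : ℤ) ∣ a * p + 1 → ∀ _hp : Fact p.Prime,
      ¬ FullMod b p := by
    rcases hor with h | ⟨h, h'⟩
    · exact main_field hm hn b hb α Q hF lam phi hE N hN hNlam hNphi a hsort hsort' κ s q hq h.le
        fun h0 => absurd h0 h.ne
    · exact main_field hm hn b hb α Q hF lam phi hE N hN hNlam hNphi a hsort hsort' κ s q hq h.le
        fun _ => h'
  have h2 := exists_prime_class hN ha
  refine ⟨h1, h2, ?_⟩
  rintro ⟨P, hP⟩
  obtain ⟨P₀, hP₀⟩ := h1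
  obtain ⟨p, hp1, hp2, hp3⟩ := h2 (max P₀ P)
  have hp : Fact p.Prime := ⟨hp2⟩
  exact absurd (hP p (lt_of_le_of_lt (le_max_right _ _) hp1) hp)
    (hP₀ p (lt_of_le_of_lt (le_max_left _ _) hp1) hp3 hp)

end Pool.Agent.Results.MP_aa40d3_nt.WeylInequalities
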